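import Mathlib
import Pool.Agent.H57.Cong

namespace Pool.Agent.Results.MP_fb2c2a_nt.Fails

open Finset Pool.Agent.H57.Cong

/-- the polynomials D -/
def D (n : ℕ) (x : ℚ) : ℚ := ∑ k ∈ range (n + 1), (n.choose k : ℚ) * ((n + k).choose k : ℚ) * x ^ k

/-- The first congruence of part (c) fails. -/
theorem result : ¬ ∀ p : ℕ, p.Prime → 3 < p → Cong p 2 (∑ k ∈ range p, D k 3 ^ 3)
    ((jacobiSym (-5) p : ℚ) * ∑ k ∈ range p, (-1) ^ k * D k (-1 / 16) ^ 3) := by
  intro h
  have := h 5 (by norm_num) (by norm_num)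
  rw [show jacobiSym (-5) 5 = 0 by norm_num] at this
  refine not_cong (by norm_num) ?_ this
  simp only [D, Nat.choose_eq_descFactorial_div_factorial]
  decide +kernel

end Pool.Agent.Results.MP_fb2c2a_nt.Fails
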